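import Pool.Agent.N204.HR.Stm3

/-!
# A common power (task F6)
-/

set_option autoImplicit false

open Module

namespace Pool.Agent.N833.HR

theorem iter_mul {K V : Type} [Field K] [AddCommGroup V] [Module K V] (f : Module.End K V) (c : K)
    (v : V) (m : ℕ) (h : (f ^ m) v = c ^ m • v) (k : ℕ) : (f ^ (m * k)) v = c ^ (m * k) • v := by
  induction k with
  | zero => simp
  | succ k ih =>
    rw [Nat.mul_succ, pow_add, pow_add, Module.End.mul_apply, h, map_smul, ih, smul_smul, mul_comm]

theorem f6 : Pool.Agent.N204.HR.S_F6 := by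
  intro K V _ _ _ _ f c G h
  classical
  have h' : ∀ v ∈ G, ∃ m : ℕ, 0 < m ∧ (f ^ m) v = c ^ m • v := by
    intro v hv
    obtain ⟨m, hm, e⟩ := h v hv
    exact ⟨m, hm, by rw [Module.End.pow_apply]; exact e⟩
  obtain ⟨b, hbG, hspan, hli⟩ := exists_linearIndependent K G
  have hfin : b.Finite := hli.setFinite
  choose! m hm0 hm using h'
  refine ⟨∏ v ∈ hfin.toFinset, m v, Finset.prod_pos fun v hv => hm0 v (hbG (by simpa using hv)),
    fun v hv => ?_⟩
  set M := ∏ v ∈ hfin.toFinset, m v with hM
  have h1 : Submodule.span K b ≤ LinearMap.ker (f ^ M - (c ^ M) • (1 : Module.End K V)) := by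
    rw [Submodule.span_le]
    intro w hw
    have hd : m w ∣ M := Finset.dvd_prod_of_mem m (by simpa using hw)
    obtain ⟨k, hk⟩ := hd
    have h2 := iter_mul f c w (m w) (hm w (hbG hw)) k
    rw [← hk] at h2
    simp [h2]
  have h3 : v ∈ Submodule.span K b := by
    rw [hspan]
    exact Submodule.subset_span hv
  have h4 := h1 h3
  rw [← Module.End.pow_apply]
  have h5 : (f ^ M) v - c ^ M • v = 0 := by simpa using h4
  exact sub_eq_zero.mp h5

end Pool.Agent.N833.HR
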